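import Pool.Agent.SKS.Two

/-!
# Sums of `k` and of `k + 1` distinct elements: `3 n ≥ k ^ 2 + 7 k + 9`

`(k + 1) |S_{k+1}| ≤ (n - k) |S_k|`.  For `t ∈ S_k` let `V t`, `I t` be the union and the intersection of the
`k`-subsets with sum `t`; `∑_s |V s| ≤ ∑_t (n - |I t|)`, so `∑_t (k - |I t|) ≤ ∑_s (|V s| - (k + 1))`
is enough.  `t` distributes its demand to the sums `s = t + z`: if `|V t| = k + 2` (then the
`k`-subsets are the complements of the pairs in `V t` with sum `p = ∑ V t - t`) to the `z` with
`z, p - z ∉ V t`, else to the `z` outside of a union `W` of two or three `k`-subsets with sum `t`,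
`k + 3 ≤ |W| ≤ k + max k 4`.
-/

set_option autoImplicit false

namespace Pool.Agent.SKS

open Finset

/-- the `k`-element subsets of `A` with sum `t` -/
def R (A : Finset ℤ) (k : ℕ) (t : ℤ) : Finset (Finset ℤ) :=
  (A.powersetCard k).filter (fun B => ∑ x ∈ B, x = t)

theorem mem_R {A B : Finset ℤ} {k : ℕ} {t : ℤ} :
    B ∈ R A k t ↔ B ⊆ A ∧ B.card = k ∧ ∑ x ∈ B, x = t := by
  simp [R, mem_powersetCard, and_assoc]

theorem mem_S_iff {A : Finset ℤ} {k : ℕ} {t : ℤ} : t ∈ S A k ↔ ∃ B, B ∈ R A k t := by
  simp only [S, mem_image, mem_R, mem_powersetCard, and_assoc]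

/-- union of the `k`-subsets with sum `t` -/
def V (A : Finset ℤ) (k : ℕ) (t : ℤ) : Finset ℤ := A.filter (fun b => ∃ B ∈ R A k t, b ∈ B)

/-- complement of the intersection -/
def J (A : Finset ℤ) (k : ℕ) (t : ℤ) : Finset ℤ := A.filter (fun b => ∃ B ∈ R A k t, b ∉ B)

theorem mem_V {A : Finset ℤ} {k : ℕ} {t b : ℤ} : b ∈ V A k t ↔ ∃ B ∈ R A k t, b ∈ B := by
  simp only [V, mem_filter]
  constructor
  · exact fun h => h.2
  · rintro ⟨B, hB, hb⟩
    exact ⟨(mem_R.1 hB).1 hb, B, hB, hb⟩

theorem sub_V {A B : Finset ℤ} {k : ℕ} {t : ℤ} (hB : B ∈ R A k t) : B ⊆ V A k t :=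
  fun _ hb => mem_V.2 ⟨B, hB, hb⟩

theorem V_sub (A : Finset ℤ) (k : ℕ) (t : ℤ) : V A k t ⊆ A := filter_subset _ _

theorem insert_R {A B : Finset ℤ} {k : ℕ} {t z : ℤ} (hB : B ∈ R A k t) (hz : z ∈ A)
    (hzB : z ∉ B) : insert z B ∈ R A (k + 1) (t + z) := by
  rw [mem_R] at hB ⊢
  refine ⟨insert_subset hz hB.1, ?_, ?_⟩
  · rw [card_insert_of_notMem hzB, hB.2.1]
  · rw [sum_insert hzB, hB.2.2]
    ring

theorem count0 (A : Finset ℤ) (k : ℕ) : ∑ s ∈ S A (k + 1), (V A (k + 1) s).card ≤
    ∑ t ∈ S A k, (J A k t).card := by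
  have e1 : ∑ s ∈ S A (k + 1), (V A (k + 1) s).card =
      ∑ b ∈ A, ((S A (k + 1)).filter (fun s => b ∈ V A (k + 1) s)).card := by
    have e0 : ∀ s ∈ S A (k + 1), (V A (k + 1) s).card =
        (A.filter (fun b => b ∈ V A (k + 1) s)).card := by
      intro s _
      congr 1
      ext b
      rw [mem_filter]
      exact ⟨fun h => ⟨V_sub _ _ _ h, h⟩, fun h => h.2⟩
    rw [sum_congr rfl e0]
    exact sum_card_bipartiteAbove_eq_sum_card_bipartiteBelow
      (fun s b => b ∈ V A (k + 1) s)
  have e2 : ∑ t ∈ S A k, (J A k t).card =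
      ∑ b ∈ A, ((S A k).filter (fun t => ∃ B ∈ R A k t, b ∉ B)).card := by
    unfold J
    exact sum_card_bipartiteAbove_eq_sum_card_bipartiteBelow
      (fun t b => ∃ B ∈ R A k t, b ∉ B)
  rw [e1, e2]
  refine sum_le_sum fun b hb => ?_
  refine card_le_card_of_injOn (fun s => s - b) ?_ (fun x _ y _ h => by simpa using h)
  intro s hs
  simp only [coe_filter, Set.mem_ofPred_eq] at hs ⊢
  obtain ⟨hs1, hs2⟩ := hs
  obtain ⟨B, hB, hbB⟩ := mem_V.1 hs2
  rw [mem_R] at hB
  have h1 : B.erase b ∈ R A k (s - b) := by
    rw [mem_R]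
    refine ⟨(erase_subset _ _).trans hB.1, ?_, ?_⟩
    · rw [card_erase_of_mem hbB, hB.2.1]
      rfl
    · have := add_sum_erase B (fun x => x) hbB
      rw [hB.2.2] at this
      linarith
  exact ⟨mem_S_iff.2 ⟨_, h1⟩, _, h1, notMem_erase b B⟩

theorem two_reps {A B B' : Finset ℤ} {k : ℕ} {t : ℤ} (hB : B ∈ R A k t) (hB' : B' ∈ R A k t)
    (hne : B ≠ B') : k + 2 ≤ (B ∪ B').card := by
  rw [mem_R] at hB hB'
  have h1 : (B \ B').card + (B ∩ B').card = k := by
    rw [card_sdiff_add_card_inter, hB.2.1]
  have h2 : (B' \ B).card + (B ∩ B').card = k := by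
    rw [inter_comm, card_sdiff_add_card_inter, hB'.2.1]
  have h3 : (B \ B').card + B'.card = (B ∪ B').card := card_sdiff_add_card B B'
  rw [hB'.2.1] at h3
  have h4 : (B \ B').card ≠ 0 := by
    intro h
    rw [card_eq_zero, sdiff_eq_empty_iff_subset] at h
    exact hne (eq_of_subset_of_card_le h (by rw [hB.2.1, hB'.2.1]))
  have h5 : (B \ B').card ≠ 1 := by
    intro h
    obtain ⟨x, hx⟩ := card_eq_one.1 h
    obtain ⟨y, hy⟩ := card_eq_one.1 (show (B' \ B).card = 1 by omega)
    have e1 := sum_inter_add_sum_sdiff B B' (fun x => x)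
    have e2 := sum_inter_add_sum_sdiff B' B (fun x => x)
    rw [hx, sum_singleton, hB.2.2] at e1
    rw [hy, sum_singleton, hB'.2.2, inter_comm] at e2
    have hxy : x = y := by linarith
    have hx1 : x ∈ B \ B' := by rw [hx]; exact mem_singleton_self x
    have hy1 : y ∈ B' \ B := by rw [hy]; exact mem_singleton_self y
    rw [mem_sdiff] at hx1 hy1
    rw [hxy] at hx1
    exact hx1.2 hy1.1
  omega

/-- the large case: a set `W` of controlled size -/
theorem exists_W {A : Finset ℤ} {k : ℕ} {t : ℤ} (h : k + 3 ≤ (V A k t).card) :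
    ∃ W : Finset ℤ, k + 3 ≤ W.card ∧ W.card ≤ k + max k 4 ∧ W ⊆ A ∧
      ∀ z ∈ A, z ∉ W → insert z W ⊆ V A (k + 1) (t + z) := by
  by_cases h1 : ∃ B ∈ R A k t, ∃ B' ∈ R A k t, k + 3 ≤ (B ∪ B').card
  · obtain ⟨B, hB, B', hB', h2⟩ := h1
    refine ⟨B ∪ B', h2, ?_, union_subset (mem_R.1 hB).1 (mem_R.1 hB').1, ?_⟩
    · have := card_union_le B B'
      rw [(mem_R.1 hB).2.1, (mem_R.1 hB').2.1] at this
      exact this.trans (Nat.add_le_add_left (le_max_left _ _) k)
    · intro z hz hzW
      rw [mem_union, not_or] at hzW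
      have c1 := sub_V (insert_R hB hz hzW.1)
      have c2 := sub_V (insert_R hB' hz hzW.2)
      refine insert_subset (c1 (mem_insert_self _ _)) (union_subset ?_ ?_)
      · exact (subset_insert _ _).trans c1
      · exact (subset_insert _ _).trans c2
  · push Not at h1
    have hne : (V A k t).Nonempty := by
      rw [← card_pos]
      omega
    obtain ⟨b, hb⟩ := hne
    obtain ⟨B1, hB1, -⟩ := mem_V.1 hb
    obtain ⟨x, hx, hxB⟩ : ∃ x ∈ V A k t, x ∉ B1 := by
      by_contra hc
      push Not at hc
      have := card_le_card (show V A k t ⊆ B1 from hc)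
      rw [(mem_R.1 hB1).2.1] at this
      omega
    obtain ⟨B2, hB2, hx2⟩ := mem_V.1 hx
    have h12 : B1 ≠ B2 := by
      rintro rfl
      exact hxB hx2
    have c12 := two_reps hB1 hB2 h12
    have d12 := h1 B1 hB1 B2 hB2
    obtain ⟨y, hy, hyB⟩ : ∃ y ∈ V A k t, y ∉ B1 ∪ B2 := by
      by_contra hc
      push Not at hc
      have := card_le_card (show V A k t ⊆ B1 ∪ B2 from hc)
      omega
    obtain ⟨B3, hB3, hy3⟩ := mem_V.1 hy
    have d13 := h1 B1 hB1 B3 hB3
    have e3 : (B1 ∪ B2 ∪ B3).card ≤ k + 4 := by
      have f1 : (B3 \ (B1 ∪ B2)).card + (B1 ∪ B2).card = (B3 ∪ (B1 ∪ B2)).card :=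
        card_sdiff_add_card B3 (B1 ∪ B2)
      have f2 : (B3 \ B1).card + B1.card = (B3 ∪ B1).card := card_sdiff_add_card B3 B1
      have f3 : (B3 \ (B1 ∪ B2)).card ≤ (B3 \ B1).card :=
        card_le_card (sdiff_subset_sdiff (Subset.refl _) subset_union_left)
      rw [(mem_R.1 hB1).2.1, union_comm B3 B1] at f2
      rw [union_comm B3] at f1
      omega
    have e4 : (B1 ∪ B2).card + 1 ≤ (B1 ∪ B2 ∪ B3).card := by
      rw [← card_insert_of_notMem hyB]
      refine card_le_card (insert_subset ?_ subset_union_left)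
      exact mem_union_right _ hy3
    refine ⟨B1 ∪ B2 ∪ B3, by omega, e3.trans (Nat.add_le_add_left (le_max_right _ _) k),
      union_subset (union_subset (mem_R.1 hB1).1 (mem_R.1 hB2).1) (mem_R.1 hB3).1, ?_⟩
    intro z hz hzW
    rw [mem_union, mem_union, not_or, not_or] at hzW
    have c1 := sub_V (insert_R hB1 hz hzW.1.1)
    have c2 := sub_V (insert_R hB2 hz hzW.1.2)
    have c3 := sub_V (insert_R hB3 hz hzW.2)
    refine insert_subset (c1 (mem_insert_self _ _)) (union_subset (union_subset ?_ ?_) ?_)
    · exact (subset_insert _ _).trans c1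
    · exact (subset_insert _ _).trans c2
    · exact (subset_insert _ _).trans c3

/-- the set of free elements -/
def fr (X : Finset ℤ) (t : ℤ) : Finset ℤ := X \ P X (∑ x ∈ X, x - t)

/-- where `s` takes charges from -/
noncomputable def Zs (A : Finset ℤ) (k : ℕ) (s : ℤ) : Finset ℤ :=
  if (V A (k + 1) s).card = k + 3 then fr (V A (k + 1) s) s else V A (k + 1) s

/-- maximal charge -/
noncomputable def kap (A : Finset ℤ) (k : ℕ) (s : ℤ) : ℚ :=
  if (V A (k + 1) s).card = k + 3 then
    ((k + 1 - (fr (V A (k + 1) s) s).card : ℕ) : ℚ) /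
      ((A.card - k - 1 - (fr (V A (k + 1) s) s).card : ℕ) : ℚ)
  else (k : ℚ) / ((A.card - k - min ((V A (k + 1) s).card - (k + 1)) (max k 4) : ℕ) : ℚ)

theorem kap_nonneg (A : Finset ℤ) (k : ℕ) (s : ℤ) : 0 ≤ kap A k s := by
  unfold kap
  split_ifs <;> positivity

theorem Zs_sub (A : Finset ℤ) (k : ℕ) (s : ℤ) : Zs A k s ⊆ V A (k + 1) s := by
  unfold Zs
  split_ifs
  · exact sdiff_subset
  · exact Subset.refl _

theorem big_n {k n : ℕ} (hk : 3 ≤ k) (hn : k * k + 7 * k + 9 ≤ 3 * n) :
    2 * k + 5 ≤ n ∧ 2 * k + max k 4 + 1 ≤ n := by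
  have h1 : 3 * k ≤ k * k := Nat.mul_le_mul_right k hk
  constructor
  · omega
  · rcases Nat.lt_or_ge k 4 with h | h
    · have : k = 3 := by omega
      subst this
      simp
      omega
    · rw [max_eq_left h]
      have h2 : 4 * k ≤ k * k := Nat.mul_le_mul_right k h
      omega

/-- local inequality -/
theorem loc {A : Finset ℤ} {k : ℕ} (hk : 3 ≤ k) (hn : k * k + 7 * k + 9 ≤ 3 * A.card) (s : ℤ)
    (h : k + 3 ≤ (V A (k + 1) s).card) :
    ((Zs A k s).card : ℚ) * kap A k s ≤ ((V A (k + 1) s).card : ℚ) - (k + 1) := by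
  obtain ⟨hb1, hb2⟩ := big_n hk hn
  unfold Zs kap
  by_cases h1 : (V A (k + 1) s).card = k + 3
  · rw [if_pos h1, if_pos h1]
    set y := (fr (V A (k + 1) s) s).card with hy
    have hyle : y ≤ k + 3 := by
      rw [hy, ← h1]
      exact card_le_card sdiff_subset
    rw [h1]
    have hpos : 0 < A.card - k - 1 - y := by omega
    have hpos' : (0 : ℚ) < ((A.card - k - 1 - y : ℕ) : ℚ) := by exact_mod_cast hpos
    rw [mul_div_assoc', div_le_iff₀ hpos']
    push_cast
    have e0 : ((k : ℚ) + 3 - (k + 1)) = 2 := by ring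
    rw [e0]
    have key : y * (k + 1 - y) ≤ 2 * (A.card - k - 1 - y) := by
      rcases Nat.lt_or_ge (k + 1) y with h2 | h2
      · rw [Nat.sub_eq_zero_of_le h2.le]
        simp
      · obtain ⟨x, hx⟩ : ∃ x, k + 1 = y + x := ⟨k + 1 - y, by omega⟩
        obtain ⟨m, hm⟩ : ∃ m, A.card = k + 1 + y + m := ⟨A.card - k - 1 - y, by omega⟩
        have e1 : k + 1 - y = x := by omega
        have e2 : A.card - k - 1 - y = m := by omega
        rw [e1, e2]
        rw [hm] at hn
        have hk' : (k : ℤ) = y + x - 1 := by omega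
        have hn' : (k : ℤ) * k + 7 * k + 9 ≤ 3 * (k + 1 + y + m) := by exact_mod_cast hn
        have goal' : (y : ℤ) * x ≤ 2 * m := by
          rw [hk'] at hn'
          nlinarith [sq_nonneg ((y : ℤ) - x), sq_nonneg ((y : ℤ) + x - 3),
            sq_nonneg ((y : ℤ) + x)]
        exact_mod_cast goal'
    exact_mod_cast key
  · rw [if_neg h1, if_neg h1]
    obtain ⟨e, he⟩ : ∃ e, (V A (k + 1) s).card = k + 1 + e := ⟨_, (by omega :
      (V A (k + 1) s).card = k + 1 + ((V A (k + 1) s).card - (k + 1)))⟩
    have he3 : 3 ≤ e := by omega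
    rw [he]
    have e1 : k + 1 + e - (k + 1) = e := by omega
    rw [e1]
    have hmle : min e (max k 4) ≤ max k 4 := min_le_right _ _
    have hpos : 0 < A.card - k - min e (max k 4) := by omega
    have hpos' : (0 : ℚ) < ((A.card - k - min e (max k 4) : ℕ) : ℚ) := by exact_mod_cast hpos
    rw [mul_div_assoc', div_le_iff₀ hpos']
    have e2 : (((k + 1 + e : ℕ) : ℚ) - (k + 1)) = e := by
      push_cast
      ring
    rw [e2]
    have base : ∀ e : ℕ, 3 ≤ e → e ≤ max k 4 → (k + 1 + e) * k ≤ e * (A.card - k - e) := by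
      intro e h3 h4
      obtain ⟨m, hm⟩ : ∃ m, A.card = k + e + m := ⟨A.card - k - e, by omega⟩
      have e3 : A.card - k - e = m := by omega
      rw [e3]
      rw [hm] at hn
      have h5 : 3 * e ≤ k * k + k := by
        rcases Nat.lt_or_ge k 4 with h | h
        · have : k = 3 := by omega
          subst this
          simp at h4
          omega
        · rw [max_eq_left h] at h4
          have : 4 * k ≤ k * k := Nat.mul_le_mul_right k h
          omega
      have h6 : (0 : ℤ) ≤ ((e : ℤ) - 3) * (k * k + k - 3 * e) := by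
        apply mul_nonneg
        · have : (3 : ℤ) ≤ e := by exact_mod_cast h3
          linarith
        · have : (3 : ℤ) * e ≤ k * k + k := by exact_mod_cast h5
          linarith
      have h7 : (0 : ℤ) ≤ (e : ℤ) * (3 * (k + e + m) - (k * k + 7 * k + 9)) := by
        apply mul_nonneg (by positivity)
        have : (k : ℤ) * k + 7 * k + 9 ≤ 3 * (k + e + m) := by exact_mod_cast hn
        linarith
      have goal' : ((k : ℤ) + 1 + e) * k ≤ e * m := by nlinarith
      exact_mod_cast goal'
    have key : (k + 1 + e) * k ≤ e * (A.card - k - min e (max k 4)) := by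
      rcases le_total e (max k 4) with h3 | h3
      · rw [min_eq_left h3]
        exact base e he3 h3
      · rw [min_eq_right h3]
        have h4 := base (max k 4) (by omega) le_rfl
        generalize max k 4 = q at *
        obtain ⟨m, hm⟩ : ∃ m, A.card = 2 * k + q + m := ⟨A.card - 2 * k - q, by omega⟩
        have e3 : A.card - k - q = k + m := by omega
        rw [e3] at h4 ⊢
        have h5 : q * m ≤ e * m := Nat.mul_le_mul_right m h3
        nlinarith
    exact_mod_cast key

/-- the charges of `t` -/
theorem charge {A : Finset ℤ} {k : ℕ} (hk : 3 ≤ k) (hn : k * k + 7 * k + 9 ≤ 3 * A.card) {t : ℤ}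
    (ht : t ∈ S A k) : ∃ g : ℤ → ℚ,
      ((J A k t).card : ℚ) - (A.card - k) ≤ ∑ z ∈ A, g z ∧
      ∀ z ∈ A, g z ≠ 0 → z ∈ Zs A k (t + z) ∧ k + 3 ≤ (V A (k + 1) (t + z)).card ∧
        g z ≤ kap A k (t + z) := by
  obtain ⟨hb1, hb2⟩ := big_n hk hn
  obtain ⟨B0, hB0⟩ := mem_S_iff.1 ht
  rcases Nat.lt_or_ge (V A k t).card (k + 2) with h1 | h1
  · -- only one representation
    refine ⟨fun _ => 0, ?_, fun z _ h => absurd rfl h⟩
    have h2 : J A k t ⊆ A \ B0 := by
      intro b hb
      simp only [J, mem_filter] at hb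
      obtain ⟨hbA, B, hB, hbB⟩ := hb
      rw [mem_sdiff]
      refine ⟨hbA, ?_⟩
      have : B0 = B := by
        by_contra hne
        have h3 := two_reps hB0 hB hne
        have h4 := card_le_card (union_subset (sub_V hB0) (sub_V hB))
        omega
      rw [this]
      exact hbB
    have h3 := card_le_card h2
    rw [card_sdiff_of_subset (mem_R.1 hB0).1, (mem_R.1 hB0).2.1] at h3
    have h4 : (J A k t).card + k ≤ A.card := by omega
    have h5 : ((J A k t).card : ℚ) + k ≤ A.card := by exact_mod_cast h4
    rw [sum_const_zero]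
    linarith
  · rcases Nat.eq_or_lt_of_le h1 with h2 | h2
    · -- pairs
      have hV : (V A k t).card = k + 2 := h2.symm
      set X := V A k t with hX
      have hXA : X ⊆ A := V_sub A k t
      set p := ∑ x ∈ X, x - t with hp
      set x := (X \ P X p).card with hx
      have hJ : J A k t ⊆ A \ (X \ P X p) := by
        intro b hb
        simp only [J, mem_filter] at hb
        obtain ⟨hbA, B, hB, hbB⟩ := hb
        rw [mem_sdiff]
        refine ⟨hbA, fun hb2 => ?_⟩
        rw [mem_sdiff] at hb2
        apply hb2.2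
        have hBX : B ⊆ X := sub_V hB
        have hB' := mem_R.1 hB
        have h3 : (X \ B).card = 2 := by
          rw [card_sdiff_of_subset hBX, hV, hB'.2.1]
          omega
        have h4 : b ∈ X \ B := mem_sdiff.2 ⟨hb2.1, hbB⟩
        have h5 : ((X \ B).erase b).card = 1 := by
          rw [card_erase_of_mem h4, h3]
        obtain ⟨b', hb'⟩ := card_eq_one.1 h5
        have h6 : b' ∈ (X \ B).erase b := by
          rw [hb']
          exact mem_singleton_self b'
        rw [mem_erase, mem_sdiff] at h6
        have h7 := add_sum_erase (X \ B) (fun x => x) h4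
        rw [hb', sum_singleton] at h7
        have h8 := sum_sdiff hBX (f := fun x => x)
        rw [hB'.2.2] at h8
        have h9 : p - b = b' := by
          rw [hp]
          linarith
        rw [mem_P, h9]
        exact ⟨hb2.1, h6.1, h6.2.1⟩
      have hJ2 := card_le_card hJ
      rw [card_sdiff_of_subset (sdiff_subset.trans hXA), ← hx] at hJ2
      have hxA : x ≤ A.card := card_le_card (sdiff_subset.trans hXA)
      -- `x ≤ k`
      have hxk : x ≤ k := by
        -- the free elements lie in `B0`
        have h3 : X \ P X p ⊆ B0 := by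
          intro b hb
          by_contra hbB
          have h4 : b ∈ J A k t := by
            simp only [J, mem_filter]
            exact ⟨hXA (mem_sdiff.1 hb).1, B0, hB0, hbB⟩
          exact (mem_sdiff.1 (hJ h4)).2 hb
        have h4 := card_le_card h3
        rw [(mem_R.1 hB0).2.1] at h4
        exact h4
      have hpos : 0 < A.card - k - 2 - x := by omega
      have hpos' : (0 : ℚ) < ((A.card - k - 2 - x : ℕ) : ℚ) := by exact_mod_cast hpos
      set c : ℚ := ((k - x : ℕ) : ℚ) / ((A.card - k - 2 - x : ℕ) : ℚ) with hc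
      have hc0 : 0 ≤ c := by positivity
      refine ⟨fun z => if z ∉ X ∧ p - z ∉ X then c else 0, ?_, ?_⟩
      · rw [← sum_filter, sum_const, nsmul_eq_mul]
        have h3 : A.card - k - 2 - x ≤ (A.filter (fun z => z ∉ X ∧ p - z ∉ X)).card := by
          have h4 : (A \ X).card = A.card - (k + 2) := by
            rw [card_sdiff_of_subset hXA, hV]
          have h5 : ((A \ X).filter (fun z => p - z ∈ X)).card ≤ x := by
            rw [hx]
            refine card_le_card_of_injOn (fun z => p - z) ?_
              (fun a _ b _ h => by simpa using h)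
            intro z hz
            simp only [coe_filter, Set.mem_ofPred_eq, mem_sdiff] at hz
            simp only [coe_sdiff, Set.mem_sdiff, mem_coe, mem_P, sub_sub_cancel]
            exact ⟨hz.2, fun h => hz.1.2 h.2.2⟩
          have h6 : (A \ X).card = ((A \ X).filter (fun z => p - z ∈ X)).card +
              ((A \ X).filter (fun z => ¬ p - z ∈ X)).card :=
            (card_filter_add_card_filter_not (s := A \ X) (fun z => p - z ∈ X)).symm
          have h7 : (A \ X).filter (fun z => ¬ p - z ∈ X) ⊆
              A.filter (fun z => z ∉ X ∧ p - z ∉ X) := by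
            intro z hz
            rw [mem_filter, mem_sdiff] at hz
            rw [mem_filter]
            exact ⟨hz.1.1, hz.1.2, hz.2⟩
          have h8 := card_le_card h7
          omega
        have h4 : ((A.card - k - 2 - x : ℕ) : ℚ) * c = ((k - x : ℕ) : ℚ) := by
          rw [hc]
          field_simp
        have h5 : ((A.card - k - 2 - x : ℕ) : ℚ) * c ≤
            ((A.filter (fun z => z ∉ X ∧ p - z ∉ X)).card : ℚ) * c :=
          mul_le_mul_of_nonneg_right (by exact_mod_cast h3) hc0
        have h6 : ((k - x : ℕ) : ℚ) = (k : ℚ) - x := by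
          rw [Nat.cast_sub hxk]
        have h7 : ((J A k t).card : ℚ) + x ≤ A.card := by
          have : (J A k t).card + x ≤ A.card := by omega
          exact_mod_cast this
        rw [h4, h6] at h5
        linarith
      · intro z hz hgz
        have hcond : z ∉ X ∧ p - z ∉ X := by
          by_contra hcc
          simp only [if_neg hcc] at hgz
          exact hgz rfl
        simp only [if_pos hcond]
        obtain ⟨hz1, hz2⟩ := hcond
        have hins : insert z X ⊆ V A (k + 1) (t + z) := by
          have c1 := sub_V (insert_R hB0 hz (fun h => hz1 (sub_V hB0 h)))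
          refine insert_subset (c1 (mem_insert_self _ _)) fun b hb => ?_
          obtain ⟨B, hB, hbB⟩ := mem_V.1 hb
          have c2 := sub_V (insert_R hB hz (fun h => hz1 (sub_V hB h)))
          exact c2 (mem_insert_of_mem hbB)
        have hcard : (insert z X).card = k + 3 := by rw [card_insert_of_notMem hz1, hV]
        have hle := card_le_card hins
        rw [hcard] at hle
        by_cases h3 : (V A (k + 1) (t + z)).card = k + 3
        · have hVs : V A (k + 1) (t + z) = insert z X :=
            (eq_of_subset_of_card_le hins (by rw [h3, hcard])).symm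
          have hps : ∑ x ∈ insert z X, x - (t + z) = p := by
            rw [sum_insert hz1, hp]
            ring
          have hfr : fr (V A (k + 1) (t + z)) (t + z) = insert z (X \ P X p) := by
            unfold fr
            rw [hVs, hps]
            ext b
            rw [mem_sdiff, mem_insert, mem_insert, mem_sdiff, mem_P, mem_P, mem_insert,
              mem_insert]
            constructor
            · rintro ⟨rfl | hb1, hb2⟩
              · exact Or.inl rfl
              · right
                refine ⟨hb1, fun hb3 => hb2 ⟨Or.inr hb3.1, hb3.2.1, Or.inr hb3.2.2⟩⟩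
            · rintro (rfl | ⟨hb1, hb2⟩)
              · refine ⟨Or.inl rfl, ?_⟩
                rintro ⟨-, hb3, hb4 | hb4⟩
                · exact hb3 hb4
                · exact hz2 hb4
              · refine ⟨Or.inr hb1, ?_⟩
                rintro ⟨-, hb3, hb4 | hb4⟩
                · have : p - z = b := by linarith
                  rw [this] at hz2
                  exact hz2 hb1
                · exact hb2 ⟨hb1, hb3, hb4⟩
          have hfrc : (fr (V A (k + 1) (t + z)) (t + z)).card = x + 1 := by
            rw [hfr, card_insert_of_notMem (fun h => hz1 (mem_sdiff.1 h).1)]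
          refine ⟨?_, hle, ?_⟩
          · unfold Zs
            rw [if_pos h3, hfr]
            exact mem_insert_self _ _
          · unfold kap
            rw [if_pos h3, hfrc, hc]
            have e1 : k + 1 - (x + 1) = k - x := by omega
            have e2 : A.card - k - 1 - (x + 1) = A.card - k - 2 - x := by omega
            rw [e1, e2]
        · refine ⟨?_, hle, ?_⟩
          · unfold Zs
            rw [if_neg h3]
            exact hins (mem_insert_self _ _)
          · unfold kap
            rw [if_neg h3, hc]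
            have hm3 : 3 ≤ min ((V A (k + 1) (t + z)).card - (k + 1)) (max k 4) := by
              apply le_min
              · omega
              · omega
            have hmle : min ((V A (k + 1) (t + z)).card - (k + 1)) (max k 4) ≤ max k 4 :=
              min_le_right _ _
            generalize min ((V A (k + 1) (t + z)).card - (k + 1)) (max k 4) = m at *
            have hpos2 : 0 < A.card - k - m := by omega
            have hpos2' : (0 : ℚ) < ((A.card - k - m : ℕ) : ℚ) := by exact_mod_cast hpos2
            rw [div_le_div_iff₀ hpos' hpos2']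
            have key : (k - x) * (A.card - k - m) ≤ k * (A.card - k - 2 - x) := by
              obtain ⟨a, ha⟩ : ∃ a, A.card = k + 2 + x + a := ⟨A.card - k - 2 - x, by omega⟩
              obtain ⟨u, hu⟩ : ∃ u, k = x + u := ⟨k - x, by omega⟩
              have e1 : k - x = u := by omega
              have e2 : A.card - k - 2 - x = a := by omega
              have e3 : A.card - k - m ≤ a + x := by omega
              rw [e1, e2]
              have h5 : u * (A.card - k - m) ≤ u * (a + x) := Nat.mul_le_mul_left u e3
              have h6 : u ≤ a := by omega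
              have h7 : u * x ≤ a * x := Nat.mul_le_mul_right x h6
              calc u * (A.card - k - m) ≤ u * (a + x) := h5
                _ = u * a + u * x := by ring
                _ ≤ u * a + a * x := by omega
                _ = k * a := by rw [hu]; ring
            exact_mod_cast key
    · -- the large case
      obtain ⟨W, hW1, hW2, hWA, hW3⟩ := exists_W (show k + 3 ≤ (V A k t).card by omega)
      have hposW : 0 < A.card - W.card := by omega
      have hposW' : (0 : ℚ) < ((A.card - W.card : ℕ) : ℚ) := by exact_mod_cast hposW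
      refine ⟨fun z => if z ∉ W then (k : ℚ) / ((A.card - W.card : ℕ) : ℚ) else 0, ?_, ?_⟩
      · rw [← sum_filter, sum_const, nsmul_eq_mul]
        have h3 : (A.filter (fun z => z ∉ W)).card = A.card - W.card := by
          rw [← card_sdiff_of_subset hWA]
          congr 1
          ext z
          simp
        rw [h3]
        have h4 : ((A.card - W.card : ℕ) : ℚ) * ((k : ℚ) / ((A.card - W.card : ℕ) : ℚ)) = k := by
          field_simp
        rw [h4]
        have h5 : ((J A k t).card : ℚ) ≤ A.card := by
          exact_mod_cast card_le_card (filter_subset _ _)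
        linarith
      · intro z hz hgz
        have hzW : z ∉ W := by
          intro hc
          have : ¬ (z ∉ W) := fun h => h hc
          simp only [if_neg this] at hgz
          exact hgz rfl
        simp only [if_pos hzW]
        have hins := hW3 z hz hzW
        have hle := card_le_card hins
        rw [card_insert_of_notMem hzW] at hle
        have hne : (V A (k + 1) (t + z)).card ≠ k + 3 := by omega
        refine ⟨?_, by omega, ?_⟩
        · unfold Zs
          rw [if_neg hne]
          exact hins (mem_insert_self _ _)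
        · unfold kap
          rw [if_neg hne]
          have hm1 : W.card - k ≤ min ((V A (k + 1) (t + z)).card - (k + 1)) (max k 4) := by
            apply le_min
            · omega
            · omega
          have hmle : min ((V A (k + 1) (t + z)).card - (k + 1)) (max k 4) ≤ max k 4 :=
            min_le_right _ _
          generalize min ((V A (k + 1) (t + z)).card - (k + 1)) (max k 4) = m at *
          have hpos2 : 0 < A.card - k - m := by omega
          have hpos2' : (0 : ℚ) < ((A.card - k - m : ℕ) : ℚ) := by exact_mod_cast hpos2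
          apply div_le_div_of_nonneg_left (by positivity) hpos2'
          have : A.card - k - m ≤ A.card - W.card := by omega
          exact_mod_cast this

theorem gen {A : Finset ℤ} {k : ℕ} (hk : 3 ≤ k) (hn : k * k + 7 * k + 9 ≤ 3 * A.card) :
    ((k : ℚ) + 1) * (S A (k + 1)).card ≤ ((A.card : ℚ) - k) * (S A k).card := by
  classical
  choose! g hg1 hg2 using fun (t : ℤ) (ht : t ∈ S A k) => charge hk hn ht
  have c0 := count0 A k
  have c0' : (∑ s ∈ S A (k + 1), ((V A (k + 1) s).card : ℚ)) ≤
      ∑ t ∈ S A k, ((J A k t).card : ℚ) := by exact_mod_cast c0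
  have c1 : ∑ t ∈ S A k, (((J A k t).card : ℚ) - (A.card - k)) ≤
      ∑ t ∈ S A k, ∑ z ∈ A, g t z := sum_le_sum fun t ht => hg1 t ht
  let w : ℤ → ℤ → ℚ := fun s z =>
    if z ∈ Zs A k s ∧ k + 3 ≤ (V A (k + 1) s).card then kap A k s else 0
  have hw0 : ∀ s z, 0 ≤ w s z := by
    intro s z
    simp only [w]
    split_ifs
    · exact kap_nonneg A k s
    · exact le_rfl
  have c2 : ∑ t ∈ S A k, ∑ z ∈ A, g t z ≤ ∑ z ∈ A, ∑ s ∈ S A (k + 1), w s z := by
    rw [sum_comm]
    refine sum_le_sum fun z hz => ?_
    calc ∑ t ∈ S A k, g t z ≤ ∑ t ∈ S A k, w (t + z) z := by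
          refine sum_le_sum fun t ht => ?_
          by_cases h : g t z = 0
          · rw [h]
            exact hw0 _ _
          · obtain ⟨h1, h2, h3⟩ := hg2 t ht z hz h
            simp only [w]
            rw [if_pos ⟨h1, h2⟩]
            exact h3
      _ = ∑ s ∈ (S A k).image (fun t => t + z), w s z := by
          rw [sum_image]
          intro a _ b _ h
          simpa using h
      _ = ∑ s ∈ ((S A k).image (fun t => t + z)).filter (fun s => w s z ≠ 0), w s z :=
          (sum_filter_ne_zero _).symm
      _ ≤ ∑ s ∈ S A (k + 1), w s z := by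
          refine sum_le_sum_of_subset_of_nonneg ?_ fun s _ _ => hw0 s z
          intro s hs
          rw [mem_filter] at hs
          have h1 : z ∈ Zs A k s ∧ k + 3 ≤ (V A (k + 1) s).card := by
            by_contra hc
            apply hs.2
            simp only [w]
            rw [if_neg hc]
          obtain ⟨B, hB, -⟩ := mem_V.1 (Zs_sub A k s h1.1)
          exact mem_S_iff.2 ⟨B, hB⟩
  have c3 : ∑ z ∈ A, ∑ s ∈ S A (k + 1), w s z ≤
      ∑ s ∈ S A (k + 1), (((V A (k + 1) s).card : ℚ) - (k + 1)) := by
    rw [sum_comm]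
    refine sum_le_sum fun s hs => ?_
    by_cases h : k + 3 ≤ (V A (k + 1) s).card
    · refine le_trans (le_of_eq ?_) (loc hk hn s h)
      have h1 : ∀ z ∈ A, w s z = if z ∈ Zs A k s then kap A k s else 0 := by
        intro z _
        simp only [w, h, and_true]
      rw [sum_congr rfl h1, ← sum_filter, sum_const, nsmul_eq_mul]
      congr 2
      congr 1
      ext z
      rw [mem_filter]
      exact ⟨fun h => h.2, fun h => ⟨V_sub _ _ _ (Zs_sub A k s h), h⟩⟩
    · have h1 : ∀ z ∈ A, w s z = 0 := by
        intro z _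
        simp only [w]
        rw [if_neg (fun hc => h hc.2)]
      rw [sum_eq_zero h1]
      obtain ⟨B, hB⟩ := mem_S_iff.1 hs
      have h2 := card_le_card (sub_V hB)
      rw [(mem_R.1 hB).2.1] at h2
      have h3 : ((k : ℚ) + 1) ≤ (V A (k + 1) s).card := by exact_mod_cast h2
      linarith
  have c4 := c1.trans (c2.trans c3)
  have f1 : ∑ t ∈ S A k, (((J A k t).card : ℚ) - (A.card - k)) =
      ∑ t ∈ S A k, ((J A k t).card : ℚ) - (S A k).card * ((A.card : ℚ) - k) := by
    rw [sum_sub_distrib, sum_const, nsmul_eq_mul]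
  have f2 : ∑ s ∈ S A (k + 1), (((V A (k + 1) s).card : ℚ) - (k + 1)) =
      ∑ s ∈ S A (k + 1), ((V A (k + 1) s).card : ℚ) - (S A (k + 1)).card * ((k : ℚ) + 1) := by
    rw [sum_sub_distrib, sum_const, nsmul_eq_mul]
  rw [f1, f2] at c4
  linarith

end Pool.Agent.SKS
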