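import Mathlib

/-!
# Sums of two and of three distinct elements of a finite set of integers

`3 |S_3| ≤ (n - 2) |S_2|` for every set `A` of `n ≥ 5` integers (`MP_a667dc_co`, `k = 2`).

For an integer `s` and `b ∈ A` let `dg s b` be the number of pairs in `A ∖ b` with sum `s - b` (the
degree of `b` in the system of triples with sum `s`), `U s` the union of the triples with sum `s`.
Counting the pairs `(s, b)`, `b ∈ U s`, in two ways: `∑ (|U s| - 3) ≥ 2 |T|` is enough, `T` the set of
sums of two different pairs.  Every `t ∈ T` has at least `n - 4` elements `b` with `dg (t + b) b ≥ 2`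
(`= 2` if `n = 7`); for given `s` the number `c s` of such `b` satisfies `2 c s ≤ (n - 4)(|U s| - 3)`:
`|U s| = 5`: `c s ≤ 1`; `|U s| = 6`: the sum of the degrees is divisible by `3` and not `12`;
`n = |U s| = 7`: the sum of the degrees is not `14`.
-/

set_option autoImplicit false

namespace Pool.Agent.SKS

open Finset

/-- smaller elements of the pairs in `B` with sum `t` -/
def H (B : Finset ℤ) (t : ℤ) : Finset ℤ := B.filter (fun x => x < t - x ∧ t - x ∈ B)

/-- elements of the pairs in `B` with sum `t` -/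
def P (B : Finset ℤ) (t : ℤ) : Finset ℤ := B.filter (fun x => t - x ≠ x ∧ t - x ∈ B)

theorem mem_H {B : Finset ℤ} {t x : ℤ} : x ∈ H B t ↔ x ∈ B ∧ x < t - x ∧ t - x ∈ B := by
  simp [H]

theorem mem_P {B : Finset ℤ} {t x : ℤ} : x ∈ P B t ↔ x ∈ B ∧ t - x ≠ x ∧ t - x ∈ B := by
  simp [P]

theorem P_eq (B : Finset ℤ) (t : ℤ) : P B t = H B t ∪ (H B t).image (fun x => t - x) := by
  ext x
  simp only [mem_union, mem_image, mem_H, mem_P]
  constructor
  · rintro ⟨h1, h2, h3⟩
    rcases lt_or_gt_of_ne h2 with h | h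
    · right
      refine ⟨t - x, ⟨h3, by linarith, by simpa using h1⟩, by ring⟩
    · left
      exact ⟨h1, h, h3⟩
  · rintro (⟨h1, h2, h3⟩ | ⟨y, ⟨h1, h2, h3⟩, rfl⟩)
    · exact ⟨h1, by intro h; omega, h3⟩
    · refine ⟨h3, by intro h; omega, by simpa using h1⟩

theorem disj_H (B : Finset ℤ) (t : ℤ) : Disjoint (H B t) ((H B t).image (fun x => t - x)) := by
  rw [Finset.disjoint_left]
  intro x hx hx'
  rw [mem_image] at hx'
  obtain ⟨y, hy, rfl⟩ := hx'
  rw [mem_H] at hx hy
  omega

theorem card_P (B : Finset ℤ) (t : ℤ) : (P B t).card = 2 * (H B t).card := by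
  rw [P_eq, card_union_of_disjoint (disj_H B t), card_image_of_injective _ (sub_right_injective)]
  ring

theorem sum_P (B : Finset ℤ) (t : ℤ) : ∑ x ∈ P B t, x = (H B t).card * t := by
  rw [P_eq, sum_union (disj_H B t), sum_image (fun x _ y _ h => sub_right_injective h),
    ← sum_add_distrib]
  simp

theorem P_sub (B : Finset ℤ) (t : ℤ) : P B t ⊆ B := filter_subset _ _

theorem P_erase (A : Finset ℤ) (t b : ℤ) : P (A.erase b) t = ((P A t).erase b).erase (t - b) := by
  ext x
  simp only [mem_erase, mem_P]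
  constructor
  · rintro ⟨⟨h1, h2⟩, h3, h4, h5⟩
    exact ⟨by intro h; apply h4; omega, h1, h2, h3, h5⟩
  · rintro ⟨h1, h2, h3, h4, h5⟩
    exact ⟨⟨h2, h3⟩, h4, by intro h; apply h1; omega, h5⟩

theorem card_erase_mem {A : Finset ℤ} {t b : ℤ} (hb : b ∈ P A t) :
    (H (A.erase b) t).card + 1 = (H A t).card := by
  have h0 := mem_P.1 hb
  have h1 : t - b ∈ (P A t).erase b := by
    rw [mem_erase, mem_P]
    refine ⟨h0.2.1, h0.2.2, ?_, ?_⟩
    · intro h
      apply h0.2.1
      omega
    · simpa using h0.1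
  have h2 := card_P (A.erase b) t
  have h3 := card_P A t
  rw [P_erase] at h2
  have h4 := card_erase_add_one h1
  have h5 := card_erase_add_one hb
  omega

theorem card_erase_notMem {A : Finset ℤ} {t b : ℤ} (hbA : b ∈ A) (hb : b ∉ P A t) :
    (H (A.erase b) t).card = (H A t).card := by
  have h1 : t - b ∉ (P A t).erase b := by
    rw [mem_erase, mem_P]
    rintro ⟨h1, h2, h3, h4⟩
    apply hb
    rw [mem_P]
    exact ⟨hbA, h1, h2⟩
  have h2 := card_P (A.erase b) t
  have h3 := card_P A t
  rw [P_erase, erase_eq_of_notMem h1, erase_eq_of_notMem hb] at h2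
  omega

/-- the number of pairs in `A ∖ b` with sum `s - b` -/
def dg (A : Finset ℤ) (s b : ℤ) : ℕ := (H (A.erase b) (s - b)).card

/-- the union of the triples with sum `s` -/
def U (A : Finset ℤ) (s : ℤ) : Finset ℤ := A.filter (fun b => 1 ≤ dg A s b)

theorem mem_U {A : Finset ℤ} {s b : ℤ} : b ∈ U A s ↔ b ∈ A ∧ 1 ≤ dg A s b := by
  simp [U]

theorem dg_pos_iff {A : Finset ℤ} {s b : ℤ} : 1 ≤ dg A s b ↔
    ∃ x ∈ A, ∃ y ∈ A, x ≠ b ∧ y ≠ b ∧ x < y ∧ x + y + b = s := by
  unfold dg
  rw [Nat.one_le_iff_ne_zero, ← Nat.pos_iff_ne_zero, card_pos]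
  constructor
  · rintro ⟨x, hx⟩
    rw [mem_H, mem_erase, mem_erase] at hx
    exact ⟨x, hx.1.2, s - b - x, hx.2.2.2, hx.1.1, hx.2.2.1, hx.2.1, by ring⟩
  · rintro ⟨x, hx, y, hy, h1, h2, h3, h4⟩
    have h5 : s - b - x = y := by linarith
    refine ⟨x, ?_⟩
    rw [mem_H, mem_erase, mem_erase, h5]
    exact ⟨⟨h1, hx⟩, h3, h2, hy⟩

theorem mem_U_of {A : Finset ℤ} {s a b c : ℤ} (ha : a ∈ A) (hb : b ∈ A) (hc : c ∈ A)
    (hab : a ≠ b) (hac : a ≠ c) (hbc : b ≠ c) (h : a + b + c = s) : a ∈ U A s := by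
  rw [mem_U, dg_pos_iff]
  refine ⟨ha, ?_⟩
  rcases lt_or_gt_of_ne hbc with h1 | h1
  · exact ⟨b, hb, c, hc, hab.symm, hac.symm, h1, by linarith⟩
  · exact ⟨c, hc, b, hb, hac.symm, hab.symm, h1, by linarith⟩

theorem P_sub_U {A : Finset ℤ} {s b : ℤ} (hb : b ∈ A) :
    P (A.erase b) (s - b) ⊆ (U A s).erase b := by
  intro x hx
  rw [mem_P, mem_erase, mem_erase] at hx
  obtain ⟨⟨h1, h2⟩, h3, h4, h5⟩ := hx
  rw [mem_erase]
  exact ⟨h1, mem_U_of h2 hb h5 h1 h3.symm (Ne.symm h4) (by ring)⟩

theorem dg_le {A : Finset ℤ} {s b : ℤ} (hb : b ∈ A) (h : 1 ≤ dg A s b) :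
    2 * dg A s b + 1 ≤ (U A s).card := by
  have hbU : b ∈ U A s := mem_U.2 ⟨hb, h⟩
  have h1 := card_le_card (P_sub_U (s := s) hb)
  rw [card_P] at h1
  have h2 := card_erase_add_one hbU
  unfold dg
  omega

theorem U_sub (A : Finset ℤ) (s : ℤ) : U A s ⊆ A := filter_subset _ _

/-- the sum of the degrees is divisible by three -/
theorem three_dvd (A : Finset ℤ) (s : ℤ) : 3 ∣ ∑ b ∈ A, dg A s b := by
  let Ω : Finset (ℤ × ℤ) := (A ×ˢ A).filter (fun p => p.2 ∈ H (A.erase p.1) (s - p.1))
  have hmem : ∀ p : ℤ × ℤ, p ∈ Ω ↔ (p.1 ∈ A ∧ p.2 ∈ A ∧ p.2 ≠ p.1 ∧ p.2 < s - p.1 - p.2 ∧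
      s - p.1 - p.2 ≠ p.1 ∧ s - p.1 - p.2 ∈ A) := by
    intro p
    simp only [Ω, mem_filter, mem_product, mem_H, mem_erase]
    tauto
  have h1 : ∑ b ∈ A, dg A s b = Ω.card := by
    simp only [Ω]
    rw [card_filter, sum_product]
    refine sum_congr rfl fun b hb => ?_
    rw [← card_filter]
    unfold dg
    congr 1
    ext x
    simp only [mem_filter, mem_H, mem_erase]
    tauto
  have e1 : (Ω.filter (fun p => p.2 < p.1 ∧ p.1 < s - p.1 - p.2)).card =
      (Ω.filter (fun p => p.1 < p.2)).card := by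
    refine card_nbij' (fun p => (p.2, p.1)) (fun p => (p.2, p.1)) ?_ ?_ ?_ ?_
    · intro p hp
      simp only [coe_filter, Set.mem_ofPred_eq, hmem] at hp ⊢
      obtain ⟨⟨a1, a2, a3, a4, a5, a6⟩, a7, a8⟩ := hp
      have e : s - p.2 - p.1 = s - p.1 - p.2 := by ring
      rw [e]
      exact ⟨⟨a2, a1, a3.symm, a8, by omega, a6⟩, a7⟩
    · intro p hp
      simp only [coe_filter, Set.mem_ofPred_eq, hmem] at hp ⊢
      obtain ⟨⟨a1, a2, a3, a4, a5, a6⟩, a7⟩ := hp
      have e : s - p.2 - p.1 = s - p.1 - p.2 := by ring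
      rw [e]
      exact ⟨⟨a2, a1, a3.symm, by omega, by omega, a6⟩, a7, a4⟩
    · intro p _
      rfl
    · intro p _
      rfl
  have e2 : (Ω.filter (fun p => s - p.1 - p.2 < p.1)).card =
      (Ω.filter (fun p => p.1 < p.2)).card := by
    refine card_nbij' (fun p => (p.2, s - p.1 - p.2)) (fun p => (s - p.1 - p.2, p.1)) ?_ ?_ ?_ ?_
    · intro p hp
      simp only [coe_filter, Set.mem_ofPred_eq, hmem] at hp ⊢
      obtain ⟨⟨a1, a2, a3, a4, a5, a6⟩, a7⟩ := hp
      have e : s - p.2 - (s - p.1 - p.2) = p.1 := by ring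
      rw [e]
      exact ⟨⟨a2, a6, by omega, a7, by omega, a1⟩, a4⟩
    · intro p hp
      simp only [coe_filter, Set.mem_ofPred_eq, hmem] at hp ⊢
      obtain ⟨⟨a1, a2, a3, a4, a5, a6⟩, a7⟩ := hp
      have e : s - (s - p.1 - p.2) - p.1 = p.2 := by ring
      rw [e]
      exact ⟨⟨a6, a1, by omega, by omega, by omega, a2⟩, a4⟩
    · intro p _
      refine Prod.ext ?_ rfl
      show s - p.2 - (s - p.1 - p.2) = p.1
      ring
    · intro p _
      refine Prod.ext rfl ?_
      show s - (s - p.1 - p.2) - p.1 = p.2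
      ring
  have h2 : Ω.card = (Ω.filter (fun p => p.1 < p.2)).card +
      ((Ω.filter (fun p => p.2 < p.1 ∧ p.1 < s - p.1 - p.2)).card +
        (Ω.filter (fun p => s - p.1 - p.2 < p.1)).card) := by
    rw [← card_union_of_disjoint, ← card_union_of_disjoint]
    · congr 1
      ext p
      simp only [mem_union, mem_filter]
      constructor
      · intro hp
        have := (hmem p).1 hp
        obtain ⟨a1, a2, a3, a4, a5, a6⟩ := this
        rcases lt_trichotomy p.1 p.2 with h | h | h
        · exact Or.inl ⟨hp, h⟩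
        · exact absurd h.symm a3
        · rcases lt_trichotomy (s - p.1 - p.2) p.1 with h' | h' | h'
          · exact Or.inr (Or.inr ⟨hp, h'⟩)
          · exact absurd h' a5
          · exact Or.inr (Or.inl ⟨hp, h, h'⟩)
      · rintro (h | h | h)
        · exact h.1
        · exact h.1
        · exact h.1
    · rw [Finset.disjoint_left]
      intro p hp hp'
      simp only [mem_union, mem_filter] at hp hp'
      have := (hmem p).1 hp.1
      omega
    · rw [Finset.disjoint_left]
      intro p hp hp'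
      simp only [mem_filter] at hp hp'
      omega
  rw [h1, h2, e1, e2]
  exact ⟨_, by ring⟩

theorem sum_dg_U (A : Finset ℤ) (s : ℤ) : ∑ b ∈ U A s, dg A s b = ∑ b ∈ A, dg A s b := by
  apply sum_subset (U_sub A s)
  intro b hb hb'
  rw [mem_U] at hb'
  by_contra h
  exact hb' ⟨hb, Nat.one_le_iff_ne_zero.2 h⟩

/-- `|U s| = 5` -/
theorem five {A : Finset ℤ} {s : ℤ} (hU : (U A s).card = 5) {b : ℤ} (hb : b ∈ A)
    (h : 2 ≤ dg A s b) : b = 2 * s - ∑ x ∈ U A s, x := by
  have h1 := dg_le hb (by omega : 1 ≤ dg A s b)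
  have hbU : b ∈ U A s := mem_U.2 ⟨hb, by omega⟩
  have h2 : dg A s b = 2 := by omega
  have h3 : P (A.erase b) (s - b) = (U A s).erase b := by
    apply eq_of_subset_of_card_le (P_sub_U hb)
    rw [card_P, card_erase_of_mem hbU, hU]
    unfold dg at h2
    omega
  have h4 := sum_P (A.erase b) (s - b)
  rw [h3] at h4
  unfold dg at h2
  rw [h2] at h4
  have h5 := add_sum_erase (U A s) (fun x => x) hbU
  push_cast at h4
  linarith

/-- `|U s| = 6`: not all degrees are `2` -/
theorem six {A : Finset ℤ} {s : ℤ} (hU : (U A s).card = 6)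
    (h : ∀ b ∈ U A s, 2 ≤ dg A s b) : False := by
  have key : ∀ b ∈ U A s, b + (∑ x ∈ U A s, x - 2 * s) ∈ U A s ∧
      b + (∑ x ∈ U A s, x - 2 * s) ≠ b := by
    intro b hbU
    have hb := (mem_U.1 hbU).1
    have h0 := h b hbU
    have h1 := dg_le hb (by omega : 1 ≤ dg A s b)
    have h2 : dg A s b = 2 := by omega
    unfold dg at h2
    have h3 : ((U A s).erase b \ P (A.erase b) (s - b)).card = 1 := by
      rw [card_sdiff_of_subset (P_sub_U hb), card_P, card_erase_of_mem hbU, hU, h2]
    obtain ⟨w, hw⟩ := card_eq_one.1 h3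
    have hw1 : w ∈ (U A s).erase b := by
      have : w ∈ (U A s).erase b \ P (A.erase b) (s - b) := by
        rw [hw]
        exact mem_singleton_self w
      exact (mem_sdiff.1 this).1
    have h4 := sum_sdiff (P_sub_U (s := s) hb) (f := fun x => x)
    rw [hw] at h4
    simp only [sum_singleton] at h4
    have h5 := sum_P (A.erase b) (s - b)
    rw [h2] at h5
    have h6 := add_sum_erase (U A s) (fun x => x) hbU
    push_cast at h5
    have h7 : b + (∑ x ∈ U A s, x - 2 * s) = w := by linarith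
    rw [h7]
    exact ⟨(mem_erase.1 hw1).2, (mem_erase.1 hw1).1⟩
  have hne : (U A s).Nonempty := by
    rw [← card_pos, hU]
    norm_num
  generalize (∑ x ∈ U A s, x - 2 * s) = κ at key
  rcases lt_trichotomy κ 0 with hκ | hκ | hκ
  · have h1 := key _ (min'_mem _ hne)
    have h2 := min'_le _ _ h1.1
    linarith
  · obtain ⟨b, hb⟩ := hne
    exact (key b hb).2 (by rw [hκ]; ring)
  · have h1 := key _ (max'_mem _ hne)
    have h2 := le_max' _ _ h1.1
    linarith

/-- the elements charged by `s` -/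
def ch (A : Finset ℤ) (s : ℤ) : Finset ℤ :=
  A.filter (fun b => 2 ≤ dg A s b ∧ (A.card = 7 → dg A s b ≤ 2))

theorem ch_sub (A : Finset ℤ) (s : ℤ) : ch A s ⊆ U A s := by
  intro b hb
  simp only [ch, mem_filter] at hb
  exact mem_U.2 ⟨hb.1, by omega⟩

theorem key {A : Finset ℤ} (hn : 5 ≤ A.card) (s : ℤ) (h3 : 3 ≤ (U A s).card) :
    2 * (ch A s).card + 3 * (A.card - 4) ≤ (A.card - 4) * (U A s).card := by
  have hle := card_le_card (ch_sub A s)
  have hUA := card_le_card (U_sub A s)
  obtain ⟨m, hm⟩ : ∃ m, A.card = m + 5 := ⟨A.card - 5, by omega⟩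
  have hm1 : A.card - 4 = m + 1 := by omega
  rw [hm1]
  rcases (ch A s).eq_empty_or_nonempty with h0 | ⟨b, hb⟩
  · rw [h0, card_empty]
    nlinarith
  · have hb' := hb
    simp only [ch, mem_filter] at hb'
    have h5 := dg_le hb'.1 (by omega : 1 ≤ dg A s b)
    have h5' : 5 ≤ (U A s).card := by omega
    rcases eq_or_lt_of_le h5' with h6 | h6
    · -- five
      have h7 : (ch A s).card ≤ 1 := by
        rw [card_le_one]
        intro x hx y hy
        simp only [ch, mem_filter] at hx hy
        rw [five h6.symm hx.1 hx.2.1, five h6.symm hy.1 hy.2.1]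
      rw [← h6]
      omega
    · rcases eq_or_lt_of_le (Nat.succ_le_of_lt h6) with h7 | h7
      · -- six
        have h7' : (U A s).card = 6 := by omega
        have h8 : (ch A s).card ≤ 3 := by
          have hs := three_dvd A s
          rw [← sum_dg_U] at hs
          have e : ∑ b ∈ U A s, dg A s b =
              (U A s).card + ((U A s).filter (fun b => 2 ≤ dg A s b)).card := by
            rw [card_eq_sum_ones, card_filter, ← sum_add_distrib]
            refine sum_congr rfl fun b hb => ?_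
            have hb1 := mem_U.1 hb
            have hb2 := dg_le hb1.1 hb1.2
            split_ifs <;> omega
          rw [e, h7'] at hs
          have h9 : ((U A s).filter (fun b => 2 ≤ dg A s b)).card ≤ 6 := by
            rw [← h7']
            exact card_filter_le _ _
          have h10 : ((U A s).filter (fun b => 2 ≤ dg A s b)).card ≠ 6 := by
            intro h
            rw [← h7'] at h
            have h11 := (card_filter_eq_iff).1 h
            exact six h7' h11
          have h12 : ch A s ⊆ (U A s).filter (fun b => 2 ≤ dg A s b) := by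
            intro x hx
            rw [mem_filter]
            refine ⟨ch_sub A s hx, ?_⟩
            simp only [ch, mem_filter] at hx
            exact hx.2.1
          have h13 := card_le_card h12
          omega
        rw [h7']
        omega
      · -- at least seven
        have h7' : 7 ≤ (U A s).card := by omega
        by_cases h8 : A.card = 7
        · have h9 : (U A s).card = 7 := by omega
          have h10 : (ch A s).card ≤ 6 := by
            by_contra hc
            have hc' : (ch A s).card = 7 := by omega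
            have hA : ch A s = A := by
              apply eq_of_subset_of_card_le (filter_subset _ _)
              show A.card ≤ (ch A s).card
              omega
            have hs := three_dvd A s
            have e : ∑ b ∈ A, dg A s b = ∑ b ∈ A, 2 := by
              refine sum_congr rfl fun b hb => ?_
              rw [← hA] at hb
              simp only [ch, mem_filter] at hb
              have := hb.2.2 h8
              omega
            rw [e, sum_const, h8] at hs
            norm_num at hs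
          rw [h9]
          omega
        · obtain ⟨u, hu⟩ : ∃ u, (U A s).card = u + 7 := ⟨(U A s).card - 7, by omega⟩
          obtain ⟨m', hm'⟩ : ∃ m', m = m' + 3 := ⟨m - 3, by omega⟩
          have hle' : (ch A s).card ≤ u + 7 := by omega
          rw [hu, hm']
          nlinarith [Nat.zero_le (m' * u)]

/-- sums of `k` distinct elements -/
def S (A : Finset ℤ) (k : ℕ) : Finset ℤ := (A.powersetCard k).image (fun B => ∑ a ∈ B, a)

theorem mem_S2 {A : Finset ℤ} {t : ℤ} : t ∈ S A 2 ↔ 1 ≤ (H A t).card := by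
  unfold S
  rw [mem_image, Nat.one_le_iff_ne_zero, ← Nat.pos_iff_ne_zero, card_pos]
  constructor
  · rintro ⟨B, hB, rfl⟩
    rw [mem_powersetCard] at hB
    obtain ⟨x, y, hxy, rfl⟩ := card_eq_two.1 hB.2
    have hx : x ∈ A := hB.1 (by simp)
    have hy : y ∈ A := hB.1 (by simp)
    rw [sum_pair hxy]
    rcases lt_or_gt_of_ne hxy with h | h
    · refine ⟨x, mem_H.2 ⟨hx, ?_, ?_⟩⟩
      · linarith
      · simpa using hy
    · refine ⟨y, mem_H.2 ⟨hy, ?_, ?_⟩⟩
      · linarith
      · simpa using hx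
  · rintro ⟨x, hx⟩
    rw [mem_H] at hx
    refine ⟨{x, t - x}, ?_, ?_⟩
    · rw [mem_powersetCard]
      refine ⟨?_, card_pair (by intro h; omega)⟩
      intro z hz
      rw [mem_insert, mem_singleton] at hz
      rcases hz with rfl | rfl
      · exact hx.1
      · exact hx.2.2
    · rw [sum_pair (by intro h; omega)]
      ring

theorem mem_S3_of {A : Finset ℤ} {s b : ℤ} (hb : b ∈ A) (h : 1 ≤ dg A s b) : s ∈ S A 3 := by
  rw [dg_pos_iff] at h
  obtain ⟨x, hx, y, hy, h1, h2, h3, h4⟩ := h
  unfold S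
  rw [mem_image]
  refine ⟨{x, y, b}, ?_, ?_⟩
  · rw [mem_powersetCard]
    refine ⟨?_, card_eq_three.2 ⟨x, y, b, h3.ne, h1, h2, rfl⟩⟩
    intro z hz
    simp only [mem_insert, mem_singleton] at hz
    rcases hz with rfl | rfl | rfl
    · exact hx
    · exact hy
    · exact hb
  · rw [sum_insert (by simp [h3.ne, h1]), sum_pair h2, ← h4]
    ring

theorem three_le_U {A : Finset ℤ} {s : ℤ} (h : s ∈ S A 3) : 3 ≤ (U A s).card := by
  unfold S at h
  rw [mem_image] at h
  obtain ⟨B, hB, rfl⟩ := h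
  rw [mem_powersetCard] at hB
  have hB2 := hB.2
  rw [← hB2]
  apply card_le_card
  obtain ⟨x, y, z, hxy, hxz, hyz, rfl⟩ := card_eq_three.1 hB.2
  have hx : x ∈ A := hB.1 (by simp)
  have hy : y ∈ A := hB.1 (by simp)
  have hz : z ∈ A := hB.1 (by simp)
  rw [sum_insert (by simp [hxy, hxz]), sum_pair hyz]
  intro w hw
  simp only [mem_insert, mem_singleton] at hw
  rcases hw with rfl | rfl | rfl
  · exact mem_U_of hx hy hz hxy hxz hyz (by ring)
  · exact mem_U_of hy hx hz hxy.symm hyz hxz (by ring)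
  · exact mem_U_of hz hx hy hxz.symm hyz.symm hxy (by ring)

theorem dg_add (A : Finset ℤ) (t b : ℤ) : dg A (t + b) b = (H (A.erase b) t).card := by
  unfold dg
  rw [add_sub_cancel_right]

/-- first double counting -/
theorem count1 (A : Finset ℤ) : ∑ s ∈ S A 3, (U A s).card ≤
    ∑ t ∈ S A 2, (A.filter (fun b => 1 ≤ dg A (t + b) b)).card := by
  have e1 : ∑ s ∈ S A 3, (U A s).card =
      ∑ b ∈ A, ((S A 3).filter (fun s => 1 ≤ dg A s b)).card := by
    unfold U
    exact sum_card_bipartiteAbove_eq_sum_card_bipartiteBelow (fun s b => 1 ≤ dg A s b)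
  have e2 : ∑ t ∈ S A 2, (A.filter (fun b => 1 ≤ dg A (t + b) b)).card =
      ∑ b ∈ A, ((S A 2).filter (fun t => 1 ≤ dg A (t + b) b)).card :=
    sum_card_bipartiteAbove_eq_sum_card_bipartiteBelow (fun t b => 1 ≤ dg A (t + b) b)
  rw [e1, e2]
  refine sum_le_sum fun b hb => ?_
  refine card_le_card_of_injOn (fun s => s - b) ?_ (fun x _ y _ h => by simpa using h)
  intro s hs
  simp only [coe_filter, Set.mem_ofPred_eq] at hs ⊢
  rw [sub_add_cancel]
  refine ⟨?_, hs.2⟩
  rw [mem_S2]
  obtain ⟨x, hx, y, hy, h1, h2, h3, h4⟩ := dg_pos_iff.1 hs.2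
  rw [Nat.one_le_iff_ne_zero, ← Nat.pos_iff_ne_zero, card_pos]
  have e : s - b - x = y := by linarith
  exact ⟨x, mem_H.2 ⟨hx, by rw [e]; exact h3, by rw [e]; exact hy⟩⟩

/-- second double counting -/
theorem count2 (A : Finset ℤ) : ∑ t ∈ (S A 2).filter (fun t => 2 ≤ (H A t).card),
    (A.filter (fun b => 2 ≤ dg A (t + b) b ∧ (A.card = 7 → dg A (t + b) b ≤ 2))).card ≤
    ∑ s ∈ S A 3, (ch A s).card := by
  have e1 : ∑ s ∈ S A 3, (ch A s).card = ∑ b ∈ A, ((S A 3).filter
      (fun s => 2 ≤ dg A s b ∧ (A.card = 7 → dg A s b ≤ 2))).card := by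
    unfold ch
    exact sum_card_bipartiteAbove_eq_sum_card_bipartiteBelow
      (fun s b => 2 ≤ dg A s b ∧ (A.card = 7 → dg A s b ≤ 2))
  have e2 : ∑ t ∈ (S A 2).filter (fun t => 2 ≤ (H A t).card),
      (A.filter (fun b => 2 ≤ dg A (t + b) b ∧ (A.card = 7 → dg A (t + b) b ≤ 2))).card =
      ∑ b ∈ A, (((S A 2).filter (fun t => 2 ≤ (H A t).card)).filter
        (fun t => 2 ≤ dg A (t + b) b ∧ (A.card = 7 → dg A (t + b) b ≤ 2))).card :=
    sum_card_bipartiteAbove_eq_sum_card_bipartiteBelow
      (fun t b => 2 ≤ dg A (t + b) b ∧ (A.card = 7 → dg A (t + b) b ≤ 2))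
  rw [e1, e2]
  refine sum_le_sum fun b hb => ?_
  refine card_le_card_of_injOn (fun t => t + b) ?_ (fun x _ y _ h => by simpa using h)
  intro t ht
  simp only [coe_filter, Set.mem_ofPred_eq, mem_filter] at ht ⊢
  exact ⟨mem_S3_of hb (by omega), ht.2⟩

theorem bound1 {A : Finset ℤ} {t : ℤ} (ht : t ∈ S A 2) :
    (A.filter (fun b => 1 ≤ dg A (t + b) b)).card + 2 ≤
      A.card + (if 2 ≤ (H A t).card then 2 else 0) := by
  rw [mem_S2] at ht
  split_ifs with h
  · have := card_filter_le A (fun b => 1 ≤ dg A (t + b) b)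
    omega
  · have h1 : (H A t).card = 1 := by omega
    have h2 : A.filter (fun b => 1 ≤ dg A (t + b) b) ⊆ A \ P A t := by
      intro b hb
      rw [mem_filter, dg_add] at hb
      rw [mem_sdiff]
      refine ⟨hb.1, fun h3 => ?_⟩
      have := card_erase_mem h3
      omega
    have h3 := card_le_card h2
    rw [card_sdiff_of_subset (P_sub A t), card_P, h1] at h3
    have h4 := card_le_card (P_sub A t)
    rw [card_P, h1] at h4
    omega

theorem bound2 {A : Finset ℤ} {t : ℤ} (ht : 2 ≤ (H A t).card) : A.card - 4 ≤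
    (A.filter (fun b => 2 ≤ dg A (t + b) b ∧ (A.card = 7 → dg A (t + b) b ≤ 2))).card := by
  have hP := card_P A t
  have hPA := card_le_card (P_sub A t)
  rcases eq_or_lt_of_le ht with h | h
  · have h1 : A \ P A t ⊆
        A.filter (fun b => 2 ≤ dg A (t + b) b ∧ (A.card = 7 → dg A (t + b) b ≤ 2)) := by
      intro b hb
      rw [mem_sdiff] at hb
      rw [mem_filter, dg_add, card_erase_notMem hb.1 hb.2, ← h]
      exact ⟨hb.1, le_refl _, fun _ => le_refl _⟩
    have h2 := card_le_card h1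
    rw [card_sdiff_of_subset (P_sub A t), hP, ← h] at h2
    exact h2
  · by_cases h7 : A.card = 7
    · have h3 : (H A t).card = 3 := by omega
      have h1 : P A t ⊆
          A.filter (fun b => 2 ≤ dg A (t + b) b ∧ (A.card = 7 → dg A (t + b) b ≤ 2)) := by
        intro b hb
        have := card_erase_mem hb
        rw [mem_filter, dg_add]
        exact ⟨P_sub A t hb, by omega, fun _ => by omega⟩
      have h2 := card_le_card h1
      omega
    · have h1 : A ⊆
          A.filter (fun b => 2 ≤ dg A (t + b) b ∧ (A.card = 7 → dg A (t + b) b ≤ 2)) := by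
        intro b hb
        rw [mem_filter, dg_add]
        refine ⟨hb, ?_, fun h => absurd h h7⟩
        by_cases hbP : b ∈ P A t
        · have := card_erase_mem hbP
          omega
        · rw [card_erase_notMem hb hbP]
          omega
      have h2 := card_le_card h1
      omega

theorem main {A : Finset ℤ} (hn : 5 ≤ A.card) :
    3 * (S A 3).card + 2 * (S A 2).card ≤ A.card * (S A 2).card := by
  set T := (S A 2).filter (fun t => 2 ≤ (H A t).card) with hT
  have c1 : ∑ s ∈ S A 3, (U A s).card + 2 * (S A 2).card ≤ A.card * (S A 2).card + 2 * T.card := by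
    have h1 := count1 A
    have h2 : ∑ t ∈ S A 2, ((A.filter (fun b => 1 ≤ dg A (t + b) b)).card + 2) ≤
        ∑ t ∈ S A 2, (A.card + (if 2 ≤ (H A t).card then 2 else 0)) :=
      sum_le_sum fun t ht => bound1 ht
    rw [sum_add_distrib, sum_add_distrib, sum_const, sum_const, ← sum_filter, sum_const] at h2
    simp only [smul_eq_mul] at h2
    rw [hT]
    linarith
  have c2 : (A.card - 4) * T.card ≤ ∑ s ∈ S A 3, (ch A s).card := by
    refine le_trans ?_ (count2 A)
    rw [← hT]
    have h1 : ∑ t ∈ T, (A.card - 4) ≤ ∑ t ∈ T,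
        (A.filter (fun b => 2 ≤ dg A (t + b) b ∧ (A.card = 7 → dg A (t + b) b ≤ 2))).card := by
      refine sum_le_sum fun t ht => ?_
      rw [hT, mem_filter] at ht
      exact bound2 ht.2
    rw [sum_const, smul_eq_mul] at h1
    linarith
  have c3 : 2 * ∑ s ∈ S A 3, (ch A s).card + 3 * (A.card - 4) * (S A 3).card ≤
      (A.card - 4) * ∑ s ∈ S A 3, (U A s).card := by
    have h1 : ∑ s ∈ S A 3, (2 * (ch A s).card + 3 * (A.card - 4)) ≤
        ∑ s ∈ S A 3, (A.card - 4) * (U A s).card :=
      sum_le_sum fun s hs => key hn s (three_le_U hs)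
    rw [sum_add_distrib, sum_const, ← mul_sum, ← mul_sum, smul_eq_mul] at h1
    linarith
  obtain ⟨m, hm⟩ : ∃ m, A.card = m + 5 := ⟨A.card - 5, by omega⟩
  have hm1 : A.card - 4 = m + 1 := by omega
  rw [hm1] at c2 c3
  have c4 : (m + 1) * (2 * T.card + 3 * (S A 3).card) ≤
      (m + 1) * ∑ s ∈ S A 3, (U A s).card := by nlinarith
  have c5 := Nat.le_of_mul_le_mul_left c4 (Nat.succ_pos m)
  linarith

end Pool.Agent.SKS
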